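import Pool.Agent.H702R3.Gen.Big2

/-!
# Weak orthogonality is not preserved by tensor products of invariant types

We build a complete theory `T` and, over every model `U` of `T`, global types `p₀, p₁, q`, invariant
under all automorphisms of `U` (so invariant over the empty set), such that `p₀` and `p₁` are weakly
orthogonal to `q` but the tensor product `p₀ ⊗ p₁` is not.

The theory is the theory of the generic structure with four sorts `X, C, Y, V`, an incidence
relation `I` between `X ∪ C ∪ Y` and `V`, a relation `N` on `X × C` and a relation `R` on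
`X × C × Y` subject to
* `I x v` and `I c v` imply `N x c`;
* `I x v` and `I c v` and `I y v` imply `R x c y`;
* `R x c y` implies `N x c`.
-/

set_option autoImplicit false

open FirstOrder FirstOrder.Language FirstOrder.Language.Structure

namespace Pool.Agent.Results.MP_f8e4dc_lc.TensorNotWeakOrth

section defs

variable {L : FirstOrder.Language.{0, 0}} {U : Type} [L.Structure U]

/-- The complete type over `U` of the tuple `a` of an elementary extension `j : U ↪ₑ N` of `U`: the
set of all formulas, with free variables indexed by `α` and parameters in `U`, true of `a`. -/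
def tp {α N : Type} [L.Structure N] (j : U ↪ₑ[L] N) (a : α → N) : Set (L.Formula (α ⊕ U)) :=
  {φ | φ.Realize (Sum.elim a j)}

/-- `p` is a complete type over `U` in variables indexed by `α`: it is the type of a tuple of some
elementary extension of `U`. -/
def IsGlobalType {α : Type} (p : Set (L.Formula (α ⊕ U))) : Prop :=
  ∃ (N : Type) (_ : L.Structure N) (j : U ↪ₑ[L] N) (a : α → N), p = tp j a

/-- `p` is invariant over `A`: it is fixed by every automorphism of `U` fixing `A` pointwise. -/
def Invariant {α : Type} (A : Set U) (p : Set (L.Formula (α ⊕ U))) : Prop :=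
  ∀ σ : U ≃[L] U, (∀ a ∈ A, σ a = a) →
    ∀ φ : L.Formula (α ⊕ U), φ ∈ p ↔ φ.relabel (Sum.map id σ) ∈ p

/-- `p` and `q` are weakly orthogonal: `p(x) ∪ q(y)` determines a complete type over `U` in the
variables `(x, y)`. -/
def WOrth {α β : Type} (p : Set (L.Formula (α ⊕ U))) (q : Set (L.Formula (β ⊕ U))) : Prop :=
  ∀ (N N' : Type) [L.Structure N] [L.Structure N'] (j : U ↪ₑ[L] N) (j' : U ↪ₑ[L] N')
    (a : α → N) (b : β → N) (a' : α → N') (b' : β → N'),
    tp j a = p → tp j b = q → tp j' a' = p → tp j' b' = q →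
      tp j (Sum.elim a b) = tp j' (Sum.elim a' b')

/-- the tuple `b` of `U` realises the restriction of `q` to `B` -/
def Realizes {β : Type} (B : Set U) (q : Set (L.Formula (β ⊕ U))) (b : β → U) : Prop :=
  ∀ φ : L.Formula (β ⊕ B), φ.relabel (Sum.map id (fun u : B => (u : U))) ∈ q ↔
    φ.Realize (Sum.elim b (fun u : B => (u : U)))

/-- `r` is the tensor product `p ⊗ q`, where `p` is invariant over `A`: for every finite `F` there
is a tuple of `U` realising the restriction of `q` to `A ∪ F`, and for every such tuple `b` and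
every formula `φ(x, y)` over `A ∪ F` one has `φ(x, y) ∈ r` if and only if `φ(x, b) ∈ p`. -/
def IsTensor {α β : Type} (A : Set U) (p : Set (L.Formula (α ⊕ U))) (q : Set (L.Formula (β ⊕ U)))
    (r : Set (L.Formula ((α ⊕ β) ⊕ U))) : Prop :=
  ∀ F : Set U, F.Finite → (∃ b : β → U, Realizes (A ∪ F) q b) ∧
    ∀ b : β → U, Realizes (A ∪ F) q b → ∀ φ : L.Formula ((α ⊕ β) ⊕ (A ∪ F : Set U)),
      (φ.relabel (Sum.map id (fun u : (A ∪ F : Set U) => (u : U))) ∈ r ↔
        φ.relabel (Sum.elim (Sum.map id b) (fun u : (A ∪ F : Set U) => Sum.inr (u : U))) ∈ p)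

end defs

open Pool.Agent.H702R3.Gen Pool.Agent.H702R3.Gen.Cls

section aux

variable {U : Type} [(Lg Sy ar).Structure U]

theorem pull_elim {κ N : Type} [(Lg Sy ar).Structure N] (j : U ↪ₑ[Lg Sy ar] N) (a : Pt → N)
    (K : Str Sy ar (Pt ⊕ U)) (h : (str N : Str Sy ar N).pull (Sum.elim a j) = K) (f : κ → Pt) :
    (str N : Str Sy ar N).pull (Sum.elim (a ∘ f) j) = K.pull (Sum.map f id) := by
  rw [← h, Str.pull_pull]
  congr 1
  funext o
  rcases o with i | u <;> rfl

theorem inj_elim {κ N : Type} [(Lg Sy ar).Structure N] (j : U ↪ₑ[Lg Sy ar] N) (a : Pt → N)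
    (h : Function.Injective (Sum.elim a j)) (f : κ → Pt) (hf : Function.Injective f) :
    Function.Injective (Sum.elim (a ∘ f) j) := by
  have e : Sum.elim (a ∘ f) j = Sum.elim a j ∘ Sum.map f id := by
    funext o
    rcases o with i | u <;> rfl
  rw [e]
  exact h.comp (Sum.map_injective.2 ⟨hf, Function.injective_id⟩)

theorem same_of {κ N N' : Type} [(Lg Sy ar).Structure N] [(Lg Sy ar).Structure N'] {v : κ → N}
    {v' : κ → N'} (hv : Function.Injective v) (hv' : Function.Injective v')
    (h : (str N : Str Sy ar N).pull v = (str N' : Str Sy ar N').pull v') :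
    Same (ar := ar) v v' :=
  ⟨fun i k => by rw [hv.eq_iff, hv'.eq_iff], h⟩

theorem inj_of_same {κ N N' : Type} [(Lg Sy ar).Structure N] [(Lg Sy ar).Structure N'] {v : κ → N}
    {v' : κ → N'} (hv : Function.Injective v) (h : Same (ar := ar) v v') :
    Function.Injective v' := fun i k hik => hv ((h.1 i k).2 hik)

variable (hU : Good (str U : Str Sy ar U))
  (hUE : Ext (fun {α} M => @Good α M) (str U : Str Sy ar U))

include hU in
theorem good_elem {N : Type} [(Lg Sy ar).Structure N] (j : U ↪ₑ[Lg Sy ar] N) :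
    Good (str N : Str Sy ar N) :=
  good_transfer (Good := fun {α} M => @Good α M) isAmalg (fun φ => j.map_sentence φ) hU

include hUE in
theorem ext_elem {N : Type} [(Lg Sy ar).Structure N] (j : U ↪ₑ[Lg Sy ar] N) :
    Ext (fun {α} M => @Good α M) (str N : Str Sy ar N) :=
  ext_transfer (fun φ => j.map_sentence φ) hUE

include hU hUE in
/-- tuples of elementary extensions with the same quantifier-free type have the same type -/
theorem tp_eq_of_same {κ N N' : Type} [(Lg Sy ar).Structure N] [(Lg Sy ar).Structure N']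
    (j : U ↪ₑ[Lg Sy ar] N) (j' : U ↪ₑ[Lg Sy ar] N') (a : κ → N) (a' : κ → N')
    (h : Same (ar := ar) (Sum.elim a j) (Sum.elim a' j')) : tp j a = tp j' a' := by
  ext φ
  exact qe (Good := fun {α} M => @Good α M) isAmalg (good_elem hU j) (ext_elem hUE j)
    (good_elem hU j') (ext_elem hUE j') φ _ _ h

theorem same_of_tp_eq {κ N N' : Type} [(Lg Sy ar).Structure N] [(Lg Sy ar).Structure N']
    (j : U ↪ₑ[Lg Sy ar] N) (j' : U ↪ₑ[Lg Sy ar] N') (a : κ → N) (a' : κ → N')
    (h : tp j a = tp j' a') : Same (ar := ar) (Sum.elim a j) (Sum.elim a' j') :=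
  same_of_formulas _ _ fun φ => by
    have := congrArg (fun s => φ ∈ s) h
    exact iff_of_eq this

omit [(Lg Sy ar).Structure U] in
/-- disjointness of a pair -/
theorem inj_pair {N : Type} {j : U → N} {a b : Unit → N}
    (ha : Function.Injective (Sum.elim a j)) (hb : Function.Injective (Sum.elim b j))
    (hab : a () ≠ b ()) : Function.Injective (Sum.elim (Sum.elim a b) j) := by
  rintro ((i | i) | u) ((k | k) | v) h
  · rfl
  · exact absurd h hab
  · have := @ha (Sum.inl ()) (Sum.inr v) h
    simp at this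
  · exact absurd h.symm hab
  · rfl
  · have := @hb (Sum.inl ()) (Sum.inr v) h
    simp at this
  · have := @ha (Sum.inr u) (Sum.inl ()) h
    simp at this
  · have := @hb (Sum.inr u) (Sum.inl ()) h
    simp at this
  · have := @ha (Sum.inr u) (Sum.inr v) h
    simpa using this

include hU hUE in
theorem main [Nonempty U] :
    ∃ (p₀ p₁ q : Set ((Lg Sy ar).Formula (Unit ⊕ U)))
      (r : Set ((Lg Sy ar).Formula ((Unit ⊕ Unit) ⊕ U))),
      IsGlobalType p₀ ∧ IsGlobalType p₁ ∧ IsGlobalType q ∧ IsGlobalType r ∧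
      Invariant ∅ p₀ ∧ Invariant ∅ p₁ ∧ Invariant ∅ q ∧
      WOrth p₀ q ∧ WOrth p₁ q ∧ IsTensor ∅ p₀ p₁ r ∧ ¬ WOrth r q := by
  classical
  have hinc := exists_inc hU hUE
  obtain ⟨N, iN, j, a, hinj, hpull⟩ := realize_ext (Good := fun {α} M => @Good α M) isAmalg U hUE
    (big (str U : Str Sy ar U) True) (big_good True hU) (big_inr _ _)
  obtain ⟨N', iN', j', a', hinj', hpull'⟩ := realize_ext (Good := fun {α} M => @Good α M) isAmalg U
    hUE (big (str U : Str Sy ar U) False) (big_good False hU) (big_inr _ _)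
  -- invariance
  have hinv : ∀ (κ : Type) (f : κ → Pt), Function.Injective f → Invariant ∅ (tp j (a ∘ f)) := by
    intro κ f hf σ _ φ
    change φ.Realize _ ↔ (φ.relabel (Sum.map id σ)).Realize _
    rw [Formula.realize_relabel]
    have i1 := inj_elim j a hinj f hf
    refine qe (Good := fun {α} M => @Good α M) isAmalg (good_elem hU j) (ext_elem hUE j)
      (good_elem hU j) (ext_elem hUE j) φ _ _ (same_of i1
        (i1.comp (Sum.map_injective.2 ⟨Function.injective_id, σ.injective⟩)) ?_)
    have hσ : (str U : Str Sy ar U).pull σ = str U := by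
      funext s t
      exact propext (σ.map_rel (⟨s, rfl⟩ : (Lg Sy ar).Relations (ar s)) t)
    rw [← Str.pull_pull, pull_elim j a _ hpull f, Str.pull_pull]
    conv_lhs => rw [← big_invariant (str U : Str Sy ar U) True σ hσ, Str.pull_pull]
    congr 1
    funext o
    rcases o with i | u <;> rfl
  -- the structure of realisations
  have hspec : ∀ (κ : Type) (f : κ → Pt), Function.Injective f → ∀ (N₁ : Type)
      [(Lg Sy ar).Structure N₁] (j₁ : U ↪ₑ[Lg Sy ar] N₁) (b : κ → N₁), tp j₁ b = tp j (a ∘ f) →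
      Function.Injective (Sum.elim b j₁) ∧ (str N₁ : Str Sy ar N₁).pull (Sum.elim b j₁) =
        (big (str U : Str Sy ar U) True).pull (Sum.map f id) := by
    intro κ f hf N₁ _ j₁ b hb
    have h1 := same_of_tp_eq j₁ j b (a ∘ f) hb
    exact ⟨inj_of_same (inj_elim j a hinj f hf) h1.symm, h1.2.trans (pull_elim j a _ hpull f)⟩
  have hX : ∀ (N₁ : Type) [(Lg Sy ar).Structure N₁] (j₁ : U ↪ₑ[Lg Sy ar] N₁) (f : Unit → Pt)
      (b : Unit → N₁), (str N₁ : Str Sy ar N₁).pull (Sum.elim b j₁) =
        (big (str U : Str Sy ar U) True).pull (Sum.map f id) →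
      (uY (str N₁ : Str Sy ar N₁) (b ()) ↔ kY (str U : Str Sy ar U) (Sum.inl (f ()))) := by
    intro N₁ _ j₁ f b h
    have := uY_pull (str N₁ : Str Sy ar N₁) (Sum.elim b j₁) (Sum.inl ())
    rw [h, uY_pull, uY_big] at this
    exact this.symm
  refine ⟨tp j (a ∘ fun _ => Pt.x), tp j (a ∘ fun _ => Pt.c), tp j (a ∘ fun _ => Pt.y),
    tp j (a ∘ Sum.elim (fun _ => Pt.x) (fun _ => Pt.c)), ⟨N, iN, j, _, rfl⟩, ⟨N, iN, j, _, rfl⟩,
    ⟨N, iN, j, _, rfl⟩, ⟨N, iN, j, _, rfl⟩, ?_, ?_, ?_, ?_, ?_, ?_, ?_⟩
  · exact hinv Unit (fun _ => Pt.x) (Function.injective_of_subsingleton _)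
  · exact hinv Unit (fun _ => Pt.c) (Function.injective_of_subsingleton _)
  · exact hinv Unit (fun _ => Pt.y) (Function.injective_of_subsingleton _)
  · -- `p₀` and `q`
    intro N₁ N₂ _ _ j₁ j₂ a₁ b₁ a₂ b₂ ha₁ hb₁ ha₂ hb₂
    have ha₁ := hspec Unit (fun _ => Pt.x) (Function.injective_of_subsingleton _) N₁ j₁ a₁ ha₁
    have hb₁ := hspec Unit (fun _ => Pt.y) (Function.injective_of_subsingleton _) N₁ j₁ b₁ hb₁
    have ha₂ := hspec Unit (fun _ => Pt.x) (Function.injective_of_subsingleton _) N₂ j₂ a₂ ha₂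
    have hb₂ := hspec Unit (fun _ => Pt.y) (Function.injective_of_subsingleton _) N₂ j₂ b₂ hb₂
    have key : ∀ (N₁ : Type) [(Lg Sy ar).Structure N₁] (j₁ : U ↪ₑ[Lg Sy ar] N₁)
        (a₁ b₁ : Unit → N₁) (_ : Function.Injective (Sum.elim a₁ j₁) ∧
          (str N₁ : Str Sy ar N₁).pull (Sum.elim a₁ j₁) =
          (big (str U : Str Sy ar U) True).pull (Sum.map (fun _ => Pt.x) id))
        (_ : Function.Injective (Sum.elim b₁ j₁) ∧
          (str N₁ : Str Sy ar N₁).pull (Sum.elim b₁ j₁) =
          (big (str U : Str Sy ar U) True).pull (Sum.map (fun _ => Pt.y) id)),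
        Function.Injective (Sum.elim (Sum.elim a₁ b₁) j₁) ∧
        (str N₁ : Str Sy ar N₁).pull (Sum.elim (Sum.elim a₁ b₁) j₁) =
          (big (str U : Str Sy ar U) True).pull
            (Sum.map (Sum.elim (fun _ => Pt.x) (fun _ => Pt.y)) id) := by
      intro N₁ _ j₁ a₁ b₁ ha hb
      refine ⟨inj_pair ha.1 hb.1 fun h => ?_, ?_⟩
      · have h1 := hX N₁ j₁ (fun _ => Pt.x) a₁ ha.2
        have h2 := hX N₁ j₁ (fun _ => Pt.y) b₁ hb.2
        rw [h] at h1
        exact h1.1 (h2.2 trivial)
      · refine worth_xy hU hinc _ ((good_elem hU j₁).pull _) ?_ ?_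
        · rw [Str.pull_pull, ← ha.2]
          congr 1
          funext o
          rcases o with i | u <;> rfl
        · rw [Str.pull_pull, ← hb.2]
          congr 1
          funext o
          rcases o with i | u <;> rfl
    have k₁ := key N₁ j₁ a₁ b₁ ha₁ hb₁
    have k₂ := key N₂ j₂ a₂ b₂ ha₂ hb₂
    exact tp_eq_of_same hU hUE j₁ j₂ _ _ (same_of k₁.1 k₂.1 (k₁.2.trans k₂.2.symm))
  · -- `p₁` and `q`
    intro N₁ N₂ _ _ j₁ j₂ a₁ b₁ a₂ b₂ ha₁ hb₁ ha₂ hb₂
    have ha₁ := hspec Unit (fun _ => Pt.c) (Function.injective_of_subsingleton _) N₁ j₁ a₁ ha₁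
    have hb₁ := hspec Unit (fun _ => Pt.y) (Function.injective_of_subsingleton _) N₁ j₁ b₁ hb₁
    have ha₂ := hspec Unit (fun _ => Pt.c) (Function.injective_of_subsingleton _) N₂ j₂ a₂ ha₂
    have hb₂ := hspec Unit (fun _ => Pt.y) (Function.injective_of_subsingleton _) N₂ j₂ b₂ hb₂
    have key : ∀ (N₁ : Type) [(Lg Sy ar).Structure N₁] (j₁ : U ↪ₑ[Lg Sy ar] N₁)
        (a₁ b₁ : Unit → N₁) (_ : Function.Injective (Sum.elim a₁ j₁) ∧
          (str N₁ : Str Sy ar N₁).pull (Sum.elim a₁ j₁) =
          (big (str U : Str Sy ar U) True).pull (Sum.map (fun _ => Pt.c) id))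
        (_ : Function.Injective (Sum.elim b₁ j₁) ∧
          (str N₁ : Str Sy ar N₁).pull (Sum.elim b₁ j₁) =
          (big (str U : Str Sy ar U) True).pull (Sum.map (fun _ => Pt.y) id)),
        Function.Injective (Sum.elim (Sum.elim a₁ b₁) j₁) ∧
        (str N₁ : Str Sy ar N₁).pull (Sum.elim (Sum.elim a₁ b₁) j₁) =
          (big (str U : Str Sy ar U) True).pull
            (Sum.map (Sum.elim (fun _ => Pt.c) (fun _ => Pt.y)) id) := by
      intro N₁ _ j₁ a₁ b₁ ha hb
      refine ⟨inj_pair ha.1 hb.1 fun h => ?_, ?_⟩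
      · have h1 := hX N₁ j₁ (fun _ => Pt.c) a₁ ha.2
        have h2 := hX N₁ j₁ (fun _ => Pt.y) b₁ hb.2
        rw [h] at h1
        exact h1.1 (h2.2 trivial)
      · refine worth_cy hU _ ((good_elem hU j₁).pull _) ?_ ?_
        · rw [Str.pull_pull, ← ha.2]
          congr 1
          funext o
          rcases o with i | u <;> rfl
        · rw [Str.pull_pull, ← hb.2]
          congr 1
          funext o
          rcases o with i | u <;> rfl
    have k₁ := key N₁ j₁ a₁ b₁ ha₁ hb₁
    have k₂ := key N₂ j₂ a₂ b₂ ha₂ hb₂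
    exact tp_eq_of_same hU hUE j₁ j₂ _ _ (same_of k₁.1 k₂.1 (k₁.2.trans k₂.2.symm))
  · -- the tensor product
    intro F hF
    have hfin : Finite (∅ ∪ F : Set U) := (hF.subset (by simp)).to_subtype
    let e : (∅ ∪ F : Set U) → U := fun u => (u : U)
    have he : Function.Injective e := Subtype.val_injective
    -- the restriction of the structure on `N`
    have hNc : (str N : Str Sy ar N).pull (Sum.elim (a ∘ fun _ : Unit => Pt.c) (j ∘ e)) =
        (big (str U : Str Sy ar U) True).pull (Sum.map (fun _ => Pt.c) e) := by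
      rw [← hpull, Str.pull_pull]
      congr 1
      funext o
      rcases o with i | u <;> rfl
    have hNi : Function.Injective (Sum.elim (a ∘ fun _ : Unit => Pt.c) (j ∘ e)) := by
      have e1 : Sum.elim (a ∘ fun _ : Unit => Pt.c) (j ∘ e) =
          Sum.elim (a ∘ fun _ : Unit => Pt.c) j ∘ Sum.map id e := by
        funext o
        rcases o with i | u <;> rfl
      rw [e1]
      exact (inj_elim j a hinj (fun _ : Unit => Pt.c) (Function.injective_of_subsingleton _)).comp
        (Sum.map_injective.2 ⟨Function.injective_id, he⟩)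
    have hmem : ∀ φ : (Lg Sy ar).Formula (Unit ⊕ (∅ ∪ F : Set U)),
        φ.relabel (Sum.map id e) ∈ tp j (a ∘ fun _ : Unit => Pt.c) ↔
          φ.Realize (Sum.elim (a ∘ fun _ : Unit => Pt.c) (j ∘ e)) := by
      intro φ
      change (φ.relabel (Sum.map id e)).Realize _ ↔ _
      rw [Formula.realize_relabel]
      have e1 : Sum.elim (a ∘ fun _ : Unit => Pt.c) j ∘ Sum.map id e =
          Sum.elim (a ∘ fun _ : Unit => Pt.c) (j ∘ e) := by
        funext o
        rcases o with i | u <;> rfl
      rw [e1]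
    refine ⟨?_, ?_⟩
    · obtain ⟨b, hb1, hb2⟩ := Ext.many (Good := fun {α} M => @Good α M) isAmalg hUE Unit e he
        ((big (str U : Str Sy ar U) True).pull (Sum.map (fun _ => Pt.c) e))
        ((big_good True hU).pull _) (by
          rw [Str.pull_pull]
          exact congrArg (fun Z : Str Sy ar U => Z.pull e) (big_inr (str U : Str Sy ar U) True))
      refine ⟨b, fun φ => ?_⟩
      refine (hmem φ).trans ?_
      exact qe (Good := fun {α} M => @Good α M) isAmalg (good_elem hU j) (ext_elem hUE j)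
        hU hUE φ _ _ (same_of hNi hb1 (hNc.trans hb2.symm))
    · intro b hb φ
      have hs : Same (ar := ar) (Sum.elim b e) (Sum.elim (a ∘ fun _ : Unit => Pt.c) (j ∘ e)) :=
        same_of_formulas _ _ fun ψ => ((hb ψ).symm.trans (hmem ψ))
      have hb1 : Function.Injective (Sum.elim b e) := inj_of_same hNi hs.symm
      have hb2 : (str U : Str Sy ar U).pull (Sum.elim b e : Unit ⊕ (∅ ∪ F : Set U) → U) =
          (big (str U : Str Sy ar U) True).pull (Sum.map (fun _ => Pt.c) e) := hs.2.trans hNc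
      have ht := tensor_eq (ρ := True) e b hb2
      change (φ.relabel (Sum.map id e)).Realize _ ↔
        (φ.relabel (Sum.elim (Sum.map id b) (Sum.inr ∘ e))).Realize _
      rw [Formula.realize_relabel, Formula.realize_relabel]
      have e1 : Sum.elim (a ∘ Sum.elim (fun _ : Unit => Pt.x) (fun _ : Unit => Pt.c)) j ∘
          Sum.map id e = Sum.elim a j ∘
            Sum.map (Sum.elim (fun _ : Unit => Pt.x) (fun _ : Unit => Pt.c)) e := by
        funext o
        rcases o with i | u <;> rfl
      have e2 : Sum.elim (a ∘ fun _ : Unit => Pt.x) j ∘ Sum.elim (Sum.map id b) (Sum.inr ∘ e) =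
          Sum.elim a j ∘ Sum.elim (Sum.map (fun _ : Unit => Pt.x) b) (Sum.inr ∘ e) := by
        funext o
        rcases o with (i | i) | u <;> rfl
      rw [e1, e2]
      refine qe (Good := fun {α} M => @Good α M) isAmalg (good_elem hU j) (ext_elem hUE j)
        (good_elem hU j) (ext_elem hUE j) φ _ _ (same_of (hinj.comp ?_) (hinj.comp ?_) ?_)
      · refine Sum.map_injective.2 ⟨?_, he⟩
        rintro (i | i) (k | k) h
        · rfl
        · simp at h
        · simp at h
        · rfl
      · rintro ((i | i) | u) ((k | k) | v) h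
        · rfl
        · simp at h
        · simp at h
        · simp at h
        · rfl
        · have := @hb1 (Sum.inl ()) (Sum.inr v) (by simpa using h)
          simp at this
        · simp at h
        · have := @hb1 (Sum.inr u) (Sum.inl ()) (by simpa using h)
          simp at this
        · have := @hb1 (Sum.inr u) (Sum.inr v) (by simpa using h)
          exact congrArg Sum.inr (Sum.inr_injective this)
      · rw [← Str.pull_pull, ← Str.pull_pull, hpull]
        exact ht
  · -- non-orthogonality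
    intro hW
    have hxc : Function.Injective
        (Sum.elim (fun _ : Unit => Pt.x) (fun _ : Unit => Pt.c) : Unit ⊕ Unit → Pt) := by
      rintro (i | i) (k | k) h
      · rfl
      · simp at h
      · simp at h
      · rfl
    have hy : Function.Injective (fun _ : Unit => Pt.y) := Function.injective_of_subsingleton _
    have h1 : tp j' (a' ∘ Sum.elim (fun _ : Unit => Pt.x) (fun _ : Unit => Pt.c)) =
        tp j (a ∘ Sum.elim (fun _ : Unit => Pt.x) (fun _ : Unit => Pt.c)) :=
      tp_eq_of_same hU hUE j' j _ _ (same_of (inj_elim j' a' hinj' _ hxc) (inj_elim j a hinj _ hxc)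
        (by rw [pull_elim j' a' _ hpull', pull_elim j a _ hpull]; exact big_xc True))
    have h2 : tp j' (a' ∘ fun _ : Unit => Pt.y) = tp j (a ∘ fun _ : Unit => Pt.y) :=
      tp_eq_of_same hU hUE j' j _ _ (same_of (inj_elim j' a' hinj' _ hy) (inj_elim j a hinj _ hy)
        (by rw [pull_elim j' a' _ hpull', pull_elim j a _ hpull]; exact big_y True))
    have h3 := same_of_tp_eq j j' _ _ (hW N N' j j' _ _ _ _ rfl rfl h1 h2)
    have h4 : tR (str N : Str Sy ar N) (a Pt.x) (a Pt.c) (a Pt.y) := by
      have := tR_pull (str N : Str Sy ar N) (Sum.elim a j) (Sum.inl Pt.x) (Sum.inl Pt.c)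
        (Sum.inl Pt.y)
      rw [hpull, tR_big] at this
      exact this.1 trivial
    have h5 : ¬ tR (str N' : Str Sy ar N') (a' Pt.x) (a' Pt.c) (a' Pt.y) := by
      have := tR_pull (str N' : Str Sy ar N') (Sum.elim a' j') (Sum.inl Pt.x) (Sum.inl Pt.c)
        (Sum.inl Pt.y)
      rw [hpull', tR_big] at this
      exact fun h => this.2 h
    have h6 : ∀ o₁ o₂ o₃, tR ((str N : Str Sy ar N).pull _) o₁ o₂ o₃ ↔
        tR ((str N' : Str Sy ar N').pull _) o₁ o₂ o₃ := fun o₁ o₂ o₃ => by rw [h3.2]
    have h7 := h6 (Sum.inl (Sum.inl (Sum.inl ()))) (Sum.inl (Sum.inl (Sum.inr ())))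
      (Sum.inl (Sum.inr ()))
    rw [tR_pull, tR_pull] at h7
    exact h5 (h7.1 h4)

end aux

/-- There are a complete theory `T` and, over every model `U` of `T`, global types `p₀, p₁, q`,
invariant over the empty set, such that `p₀` and `p₁` are weakly orthogonal to `q` but the tensor
product `r = p₀ ⊗ p₁` is not. -/
theorem result : ∃ (L : FirstOrder.Language.{0, 0}) (T : L.Theory), T.IsComplete ∧
    ∀ (U : Type) [L.Structure U] [Nonempty U], U ⊨ T →
      ∃ (p₀ p₁ q : Set (L.Formula (Unit ⊕ U))) (r : Set (L.Formula ((Unit ⊕ Unit) ⊕ U))),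
        IsGlobalType p₀ ∧ IsGlobalType p₁ ∧ IsGlobalType q ∧ IsGlobalType r ∧
        Invariant ∅ p₀ ∧ Invariant ∅ p₁ ∧ Invariant ∅ q ∧
        WOrth p₀ q ∧ WOrth p₁ q ∧ IsTensor ∅ p₀ p₁ r ∧ ¬ WOrth r q := by
  obtain ⟨M, hM, hME⟩ := exists_generic ar_pos (Good := fun {α} M => @Good α M) isAmalg
  let _ : (Lg Sy ar).Structure ℕ := M.toStructure
  refine ⟨Lg Sy ar, (Lg Sy ar).completeTheory ℕ, completeTheory.isComplete _ _, ?_⟩
  intro U _ _ hU
  have hmem : ∀ φ : (Lg Sy ar).Sentence, ℕ ⊨ φ ↔ U ⊨ φ := by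
    intro φ
    constructor
    · intro h
      exact hU.realize_of_mem φ h
    · intro h
      by_contra hn
      have h2 : Formula.not φ ∈ (Lg Sy ar).completeTheory ℕ := (Sentence.realize_not ℕ).2 hn
      exact (Sentence.realize_not U).1 (hU.realize_of_mem _ h2) h
  have h1 : Good (str U : Str Sy ar U) :=
    good_transfer (Good := fun {α} M => @Good α M) isAmalg hmem hM
  have h2 : Ext (fun {α} M => @Good α M) (str U : Str Sy ar U) := ext_transfer hmem hME
  exact main h1 h2

end Pool.Agent.Results.MP_f8e4dc_lc.TensorNotWeakOrth
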